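import Pool.Agent.Q35.DP.Plan

/-!
# Project DP: the generic point of the lower bound (job PTB)
-/

set_option autoImplicit false
set_option linter.unusedSectionVars false

namespace Pool.Agent.Q231.DP

open MvPolynomial FF Pool.Agent.W603.LV Pool.Agent.TH145.GH Pool.Agent.Y166.DP Pool.Agent.Q35.DP

/-- the subfield of the constants of a derivation -/
def cst {F : Type} [Field F] (D : Derivation ℤ F F) : Subfield F where
  carrier := {f | D f = 0}
  mul_mem' := by
    intro a b ha hb
    show D (a * b) = 0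
    have ha' : D a = 0 := ha
    have hb' : D b = 0 := hb
    rw [D.leibniz, ha', hb', smul_zero, smul_zero, add_zero]
  one_mem' := D.map_one_eq_zero
  add_mem' := by
    intro a b ha hb
    show D (a + b) = 0
    have ha' : D a = 0 := ha
    have hb' : D b = 0 := hb
    rw [map_add, ha', hb', add_zero]
  zero_mem' := map_zero D
  neg_mem' := by
    intro a ha
    show D (-a) = 0
    have ha' : D a = 0 := ha
    rw [map_neg, ha', neg_zero]
  inv_mem' := by
    intro a ha
    show D a⁻¹ = 0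
    have ha' : D a = 0 := ha
    rw [D.leibniz_inv, ha', smul_zero]

theorem mem_cst {F : Type} [Field F] {D : Derivation ℤ F F} {f : F} : f ∈ cst D ↔ D f = 0 := Iff.rfl

/-- a root of an element of the field of constants is a constant -/
theorem root_cst {F : Type} [Field F] [CharZero F] {D : Derivation ℤ F F} {b : F} (n : ℕ)
    (hn : n ≠ 0) (hb : b ≠ 0) (h : b ^ n ∈ cst D) : b ∈ cst D := by
  rw [mem_cst, D.leibniz_pow] at h
  simp only [nsmul_eq_mul, smul_eq_mul] at h
  have h1 : (n : F) ≠ 0 := Nat.cast_ne_zero.2 hn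
  rcases mul_eq_zero.1 h with h2 | h2
  · exact absurd h2 h1
  · rcases mul_eq_zero.1 h2 with h3 | h3
    · exact absurd h3 (pow_ne_zero _ hb)
    · exact h3

theorem fn_cst {F : Type} [Field F] {D : Derivation ℤ F F} {x y : F} (hx : x ∈ cst D)
    (hy : y ∈ cst D) (j : ℕ) : fn x y j ∈ cst D := lift_fn hx hy j

/-- a transcendental element is not a root -/
theorem tr_poly {k : Type} [Field k] [Algebra ℂ k] {α : k} (h : Transcendental ℂ α)
    (P : Polynomial ℂ) (n : ℕ) (hn : P.coeff n ≠ 0) : Polynomial.aeval α P ≠ 0 := by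
  intro h0
  have h1 : P = 0 := by
    by_contra h2
    exact h ⟨P, h2, h0⟩
  rw [h1] at hn
  exact hn (Polynomial.coeff_zero n)

section core

variable {k K : Type} [Field k] [Field K] [Algebra k K] [CharZero k] [IsAlgClosed k] [IsFF k K]
  [Algebra ℂ k]

theorem tr_sq {α : k} (h : Transcendental ℂ α) (c : ℂ) : α ^ 2 - algebraMap ℂ k c ≠ 0 := by
  have := tr_poly h (Polynomial.X ^ 2 - Polynomial.C c) 2
    (by simp [Polynomial.coeff_X_pow, Polynomial.coeff_C])
  simpa using this

theorem sig_ne {α β γ : k} (h : Transcendental ℂ α) (lam : ℂ) (h1 : β ^ 2 = α ^ 2 - 1)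
    (h2 : γ ^ 2 = α ^ 2 - algebraMap ℂ k lam) : α * β + α * γ + β * γ ≠ 0 := by
  intro h0
  have h3 := tr_poly h (3 * Polynomial.X ^ 8 - Polynomial.C (4 * (1 + lam)) * Polynomial.X ^ 6 +
    Polynomial.C (6 * lam) * Polynomial.X ^ 4 - Polynomial.C (lam ^ 2)) 8
    (by
      have e3 : (3 : Polynomial ℂ) = Polynomial.C 3 := rfl
      rw [e3, Polynomial.coeff_sub, Polynomial.coeff_add, Polynomial.coeff_sub,
        Polynomial.coeff_C_mul, Polynomial.coeff_C_mul, Polynomial.coeff_C_mul,
        Polynomial.coeff_X_pow, Polynomial.coeff_X_pow, Polynomial.coeff_X_pow,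
        Polynomial.coeff_C]
      norm_num)
  apply h3
  simp only [map_sub, map_add, map_mul, map_pow, Polynomial.aeval_X, Polynomial.aeval_C,
    map_ofNat, map_one]
  set L := algebraMap ℂ k lam
  have e1 : α * (β + γ) = -(β * γ) := by linear_combination h0
  have e2 : α ^ 2 * (β ^ 2 + γ ^ 2 + 2 * (β * γ)) = β ^ 2 * γ ^ 2 := by
    linear_combination (α * (β + γ) - β * γ) * e1
  have e3 : 2 * α ^ 2 * (β * γ) = β ^ 2 * γ ^ 2 - α ^ 2 * (β ^ 2 + γ ^ 2) := by
    linear_combination e2
  have e4 : 4 * α ^ 4 * (β ^ 2 * γ ^ 2) = (β ^ 2 * γ ^ 2 - α ^ 2 * (β ^ 2 + γ ^ 2)) ^ 2 := by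
    rw [← e3]
    ring
  rw [h1, h2] at e4
  linear_combination e4

/-- the conclusions for one configuration -/
theorem core (hExt : StmExt) (hDual : StmDual) (hAlg : StmAlg) (hHt : StmHt) (hInj : StmInj)
    (hMov : StmMov) (hPta : S_PTA) (lam : ℂ) (x y : K)
    (hE : Ell k K (algebraMap ℂ k lam) x y) (m : ℕ) (hm : 2 ≤ m)
    (z : (Fin 2 ⊕ (Fin m ⊕ Fin m)) → k) (hz : AlgebraicIndependent ℂ z) :
    ∃ ξ : Idx (2 * m) → k, ξ ∈ cone x y (2 * m) ∧
      (∀ i, IsAlgebraic (IntermediateField.adjoin ℂ (Set.range ξ)) (z i)) ∧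
      ∃ D₁ D₂ : Derivation ℤ K K, (∀ c : ℂ, D₁ (algebraMap k K (algebraMap ℂ k c)) = 0 ∧
            D₂ (algebraMap k K (algebraMap ℂ k c)) = 0) ∧
          D₁ x = 0 ∧ D₁ y = 0 ∧ D₂ x = 0 ∧ D₂ y = 0 ∧ wr D₁ D₂ (gv x y ξ) ≠ 0 := by
  classical
  set L := algebraMap ℂ k lam with hL
  set α : k := z (.inl 0) with hα
  set τ : k := z (.inl 1) with hτ
  set r : Fin m → k := fun j => z (.inr (.inl j)) with hr
  set s : Fin m → k := fun j => z (.inr (.inr j)) with hs
  have htr : ∀ i, Transcendental ℂ (z i) := fun i => hz.transcendental i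
  have hne : ∀ i, z i ≠ 0 := by
    intro i h0
    apply htr i
    rw [h0]
    exact isAlgebraic_zero
  obtain ⟨β, hβ⟩ := IsAlgClosed.exists_pow_nat_eq (α ^ 2 - 1) (n := 2) (by norm_num)
  obtain ⟨γ, hγ⟩ := IsAlgClosed.exists_pow_nat_eq (α ^ 2 - L) (n := 2) (by norm_num)
  obtain ⟨a, ha⟩ := IsAlgClosed.exists_pow_nat_eq (-(1 + τ ^ 4)) (n := 4) (by norm_num)
  obtain ⟨ω, hω⟩ := IsAlgClosed.exists_pow_nat_eq (-2 * (τ ^ 8 + τ ^ 4 + 1)) (n := 2) (by norm_num)
  have hα0 : α ≠ 0 := hne _
  have hτ0 : τ ≠ 0 := hne _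
  have hβ0 : β ≠ 0 := by
    intro h0
    have := tr_sq (htr (.inl 0)) 1
    rw [map_one] at this
    apply this
    rw [← hα, ← hβ, h0]
    simp
  have hγ0 : γ ≠ 0 := by
    intro h0
    apply tr_sq (htr (.inl 0)) lam
    rw [← hα, ← hL, ← hγ, h0]
    simp
  have hαβγ : α * β * γ ≠ 0 := mul_ne_zero (mul_ne_zero hα0 hβ0) hγ0
  have hσ : α * β + α * γ + β * γ ≠ 0 := sig_ne (htr (.inl 0)) lam hβ hγ
  have ha0 : a ≠ 0 := by
    intro h0
    have := tr_poly (htr (.inl 1)) (1 + Polynomial.X ^ 4) 4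
      (by simp [Polynomial.coeff_X_pow, Polynomial.coeff_one])
    apply this
    simp only [map_add, map_one, map_pow, Polynomial.aeval_X]
    rw [← hτ]
    rw [h0] at ha
    linear_combination ha
  have hω0 : ω ≠ 0 := by
    intro h0
    have := tr_poly (htr (.inl 1)) (Polynomial.X ^ 8 + Polynomial.X ^ 4 + 1) 8
      (by simp [Polynomial.coeff_X_pow, Polynomial.coeff_one])
    apply this
    simp only [map_add, map_one, map_pow, Polynomial.aeval_X]
    rw [← hτ]
    rw [h0] at hω
    have h2 : (2 : k) ≠ 0 := two_ne_zero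
    have h3 : (2 : k) * (τ ^ 8 + τ ^ 4 + 1) = 0 := by linear_combination hω
    exact (mul_eq_zero.1 h3).resolve_left h2
  let j0 : Fin m := ⟨0, by omega⟩
  have hr0 : r ≠ 0 := fun h => hne (.inr (.inl j0)) (congrFun h j0)
  have hs0 : s ≠ 0 := fun h => hne (.inr (.inr j0)) (congrFun h j0)
  -- dual derivations
  obtain ⟨Dz, hDz⟩ := hDual ℂ k (Fin 2 ⊕ (Fin m ⊕ Fin m)) z hz
  let DD : (Fin 2 ⊕ (Fin m ⊕ Fin m)) → Derivation ℤ k k := fun i => (Dz i).restrictScalars ℤ
  have hDD : ∀ i j, DD i (z j) = if i = j then 1 else 0 := fun i j => hDz i j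
  have hDC : ∀ i (c : ℂ), DD i (algebraMap ℂ k c) = 0 := fun i c => (Dz i).map_algebraMap c
  have hht : ht k (uu x y α β γ r s) = 2 * m := by
    refine hHt k K L x y hE α β γ hβ hγ hαβγ hσ m r s hm hr0 hs0 ?_
    intro j
    refine ⟨DD (.inr (.inr j)), hDC _ _, ?_, ?_, ?_⟩
    · rw [hα, hDD]; simp
    · intro i
      show DD _ (z (.inr (.inl i))) = 0
      rw [hDD]; simp
    · intro i
      show DD _ (z (.inr (.inr i))) = _
      rw [hDD]
      by_cases hij : i = j
      · subst hij; simp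
      · have : (Sum.inr (Sum.inr j) : Fin 2 ⊕ (Fin m ⊕ Fin m)) ≠ Sum.inr (Sum.inr i) := by
          intro h
          apply hij
          have h1 := Sum.inr_injective (Sum.inr_injective h)
          exact h1.symm
        rw [if_neg this, if_neg hij]
  set u := uu x y α β γ r s with hu
  have hpos : 0 < ht k u := by
    rw [hht]
    have : (2 : ℤ) ≤ m := by exact_mod_cast hm
    omega
  obtain ⟨ξ, hξ, hgv⟩ := hPta k K L x y hE α β γ hβ hγ hαβγ hσ m r s hm hht τ a ω ha hω hτ0 hω0 ha0
  have hxt := hE.tr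
  have hlift : ∀ D : Derivation ℤ k k, D L = 0 → ∃ D' : Derivation ℤ K K, Lifts D D' ∧ D' x = 0 ∧
      D' y = 0 := by
    intro D hD
    obtain ⟨D', h1, h2⟩ := (hExt k K x hxt).1 D
    exact ⟨D', h1, h2, lift_y hE h1 hD h2⟩
  refine ⟨ξ, hξ, ?_, ?_⟩
  · -- algebraicity
    have key : ∀ D : Derivation ℂ k k, (∀ t ∈ Set.range ξ, D t = 0) → ∀ i, D (z i) = 0 := by
      intro D hD
      let D0 : Derivation ℤ k k := D.restrictScalars ℤ
      have hDL : D0 L = 0 := D.map_algebraMap lam
      obtain ⟨D', h1, h2, h3⟩ := hlift D0 hDL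
      have h4 : ∀ i, D' (gg τ a ω u i) = 0 := by
        intro i
        rw [hu, ← hgv]
        show D' (fsum x y fun j => ξ (.inl (i, j))) = 0
        rw [lift_fsum h1 h2 h3]
        unfold fsum
        refine Finset.sum_eq_zero fun j _ => ?_
        have : D0 (ξ (.inl (i, j))) = 0 := hD _ ⟨_, rfl⟩
        show algebraMap k K (D0 (ξ (.inl (i, j)))) * fn x y j = 0
        rw [this, map_zero, zero_mul]
      obtain ⟨h5, h6⟩ := (hMov k K τ a ω ha hω hτ0 hω0 ha0 u hpos).1 D0 D' h1 h4
      obtain ⟨h7, h8, h9⟩ := hInj k K L x y hE α β γ hβ hγ hαβγ hσ m r s (by omega) hr0 hs0 hht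
        D0 D' hDL h1 h2 h6
      intro i
      rcases i with i | i | i
      · fin_cases i
        · exact h7
        · exact h5
      · exact h8 i
      · exact h9 i
    intro i
    exact hAlg ℂ k (Set.range ξ) (z i) fun D hD => key D hD i
  · -- the two derivations
    obtain ⟨D₁, h11, h12, h13⟩ := hlift (DD (.inl 1)) (hDC _ _)
    obtain ⟨D₂, h21, h22, h23⟩ := hlift (DD (.inr (.inl j0))) (hDC _ _)
    refine ⟨D₁, D₂, ?_, h12, h13, h22, h23, ?_⟩
    · intro c
      rw [h11, h21, hDC, hDC, map_zero]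
      exact ⟨rfl, rfl⟩
    rw [hgv]
    have hE2 : ∀ c : k, DD (.inr (.inl j0)) c = 0 → algebraMap k K c ∈ cst D₂ := by
      intro c hc
      rw [mem_cst, h21, hc, map_zero]
    have hx2 : x ∈ cst D₂ := h22
    have hy2 : y ∈ cst D₂ := h23
    have cα : α ∈ cst (DD (.inr (.inl j0))) := by
      rw [mem_cst, hα, hDD]; simp
    have cτ : τ ∈ cst (DD (.inr (.inl j0))) := by
      rw [mem_cst, hτ, hDD]; simp
    have cL : L ∈ cst (DD (.inr (.inl j0))) := hDC _ _
    have cβ : β ∈ cst (DD (.inr (.inl j0))) := by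
      refine root_cst 2 (by norm_num) hβ0 ?_
      rw [hβ]
      exact sub_mem (pow_mem cα 2) (one_mem _)
    have cγ : γ ∈ cst (DD (.inr (.inl j0))) := by
      refine root_cst 2 (by norm_num) hγ0 ?_
      rw [hγ]
      exact sub_mem (pow_mem cα 2) cL
    have cs : ∀ j, s j ∈ cst (DD (.inr (.inl j0))) := by
      intro j
      show DD _ (z (.inr (.inr j))) = 0
      rw [hDD]; simp
    have cpx : px α β γ ∈ cst (DD (.inr (.inl j0))) := mul_mem (add_mem cα cβ) (add_mem cα cγ)
    have cpy : py α β γ ∈ cst (DD (.inr (.inl j0))) :=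
      mul_mem (mul_mem (add_mem cα cβ) (add_mem cα cγ)) (add_mem cβ cγ)
    have hphi : phi x y α β γ ∈ cst D₂ := by
      unfold phi
      refine div_mem (sub_mem (add_mem hy2 (hE2 _ (mul_mem (mul_mem cα cβ) cγ))) (mul_mem
        (hE2 _ (add_mem (add_mem cα cβ) cγ)) (sub_mem hx2 (hE2 _ (pow_mem cα 2)))))
        (sub_mem hx2 (hE2 _ (pow_mem cα 2)))
    have hr1 : r1 x y α β γ s ∈ cst D₂ := by
      unfold r1
      refine sum_mem fun j _ => mul_mem (hE2 _ (cs j)) (sub_mem (fn_cst hx2 hy2 _) (mul_mem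
        (hE2 _ (div_mem (fn_cst cpx cpy _) cpx)) hx2))
    have hu1 : D₂ (u 1) = 0 := by
      have : u 1 ∈ cst D₂ := div_mem (pow_mem hr1 2) (mul_mem hx2 hphi)
      exact this
    have hphi0 : phi x y α β γ ≠ 0 := by
      intro h0
      have h1 : u = 0 := by
        funext i
        fin_cases i
        · show r0 x y α β γ r ^ 2 / phi x y α β γ = 0
          rw [h0, div_zero]
        · show r1 x y α β γ s ^ 2 / (x * phi x y α β γ) = 0
          rw [h0, mul_zero, div_zero]
      rw [h1] at hpos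
      have h2 : ht k (0 : Fin 2 → K) = 0 := by
        unfold ht
        simp [mo_zero]
      omega
    have hr0D : D₂ (r0 x y α β γ r) = x - algebraMap k K (px α β γ) := by
      unfold r0
      rw [map_sum, Finset.sum_eq_single j0]
      · rw [D₂.leibniz, h21]
        have e1 : D₂ (fn x y ((j0 : ℕ) + 1) - algebraMap k K (fn (px α β γ) (py α β γ) ((j0 : ℕ) + 1)))
            = 0 := sub_mem (fn_cst hx2 hy2 _) (hE2 _ (fn_cst cpx cpy _))
        have e2 : DD (.inr (.inl j0)) (r j0) = 1 := by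
          show DD _ (z (.inr (.inl j0))) = 1
          rw [hDD]; simp
        rw [e1, e2, map_one, smul_zero, zero_add, smul_eq_mul, mul_one]
        simp [fn, j0]
      · intro j _ hj
        rw [D₂.leibniz, h21]
        have e1 : D₂ (fn x y ((j : ℕ) + 1) - algebraMap k K (fn (px α β γ) (py α β γ) ((j : ℕ) + 1)))
            = 0 := sub_mem (fn_cst hx2 hy2 _) (hE2 _ (fn_cst cpx cpy _))
        have e2 : DD (.inr (.inl j0)) (r j) = 0 := by
          show DD _ (z (.inr (.inl j))) = 0
          rw [hDD, if_neg]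
          intro h
          apply hj
          have h1 := Sum.inl_injective (Sum.inr_injective h)
          exact h1.symm
        rw [e1, e2, map_zero, smul_zero, smul_zero, add_zero]
      · intro h
        exact absurd (Finset.mem_univ _) h
    have hr0D' : D₂ (r0 x y α β γ r) ≠ 0 := by
      rw [hr0D]
      exact Ell.x_ne hE _
    have hr00 : r0 x y α β γ r ≠ 0 := by
      intro h0
      apply hr0D'
      rw [h0, map_zero]
    have hu0 : D₂ (u 0) ≠ 0 := by
      have e : D₂ (r0 x y α β γ r ^ 2 / phi x y α β γ) ≠ 0 := by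
        rw [D₂.leibniz_div_const _ _ hphi, D₂.leibniz_pow]
        simp only [smul_eq_mul, nsmul_eq_mul]
        have : CharZero K := charZero_of_injective_algebraMap (algebraMap k K).injective
        refine mul_ne_zero (inv_ne_zero hphi0) (mul_ne_zero (by norm_num) (mul_ne_zero
          (pow_ne_zero _ hr00) hr0D'))
      exact e
    have hu10 : u 1 ≠ 0 := by
      intro h0
      have hu00 : u 0 ≠ 0 := by
        intro h
        apply hu0
        rw [h, map_zero]
      have h1 : ∀ P : Place k K, mo P u = P.ord (u 0) := by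
        intro P
        refine mo_eq P hu00 ?_
        intro j
        fin_cases j
        · exact Or.inr le_rfl
        · exact Or.inl h0
      have h2 : ht k u = 0 := by
        unfold ht
        rw [finsum_congr h1, sum_ord, neg_zero]
      omega
    refine (hMov k K τ a ω ha hω hτ0 hω0 ha0 u hpos).2 _ _ D₁ D₂ h11 h21 ?_ cτ hu0 hu1 hu10
    rw [hτ, hDD, if_pos rfl]
    exact one_ne_zero

end core

theorem ptb : StmModel → StmFF → StmExt → StmDual → StmAlg → StmHt → StmInj → StmMov → S_PTA →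
    S_PTB := by
  classical
  intro hModel hFF hExt hDual hAlg hHt hInj hMov hPta lam hl0 hl1 m hm
  let ι : Type := Fin 2 ⊕ (Fin m ⊕ Fin m)
  let R : Type := MvPolynomial ι ℂ
  let F : Type := FractionRing R
  let k : Type := AlgebraicClosure F
  have hinj : Function.Injective (algebraMap R k) := by
    rw [IsScalarTower.algebraMap_eq R F k]
    exact (algebraMap F k).injective.comp (IsFractionRing.injective R F)
  let z : ι → k := fun i => algebraMap R k (X i)
  have hz : AlgebraicIndependent ℂ z := by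
    have h1 := MvPolynomial.algebraicIndependent_X ι ℂ
    exact h1.map' (f := IsScalarTower.toAlgHom ℂ R k) hinj
  have hC : CharZero k := charZero_of_injective_algebraMap (algebraMap ℂ k).injective
  have hL0 : algebraMap ℂ k lam ≠ 0 := by
    rw [Ne, map_eq_zero]
    exact hl0
  have hL1 : algebraMap ℂ k lam ≠ 1 := by
    intro h
    apply hl1
    apply (algebraMap ℂ k).injective
    rw [h, map_one]
  have hE := hModel k (algebraMap ℂ k lam) hL0 hL1
  have hFF' : IsFF k (KB k (algebraMap ℂ k lam)) := hFF k _ _ _ _ hE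
  obtain ⟨ξ, hξ, hal, hD⟩ := core hExt hDual hAlg hHt hInj hMov hPta lam _ _ hE m hm z hz
  have hcard : Fintype.card (Fin (2 * m + 2)) = Fintype.card ι := by
    simp only [ι, Fintype.card_sum, Fintype.card_fin]
    ring
  let e : Fin (2 * m + 2) ≃ ι := Fintype.equivOfCardEq hcard
  refine ⟨k, KB k (algebraMap ℂ k lam), inferInstance, inferInstance, inferInstance, hC,
    inferInstance, hFF', inferInstance, _, _, hE, ξ, hξ, ⟨z ∘ e, ?_, fun i => hal (e i)⟩, hD⟩
  exact hz.comp e e.injective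

end Pool.Agent.Q231.DP
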