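import Pool.Agent.Q35.DP.Plan

/-!
# Project DP: the dimension of the span of the products (job RANK)
-/

set_option autoImplicit false
set_option linter.unusedSectionVars false

namespace Pool.Agent.Q231.DP.RANK

open MvPolynomial FF Pool.Agent.W603.LV Pool.Agent.TH145.GH Pool.Agent.Y166.DP Pool.Agent.Q35.DP

section
variable {k K : Type} [Field k] [Field K] [Algebra k K]

/-- a combination of the functions with constant coefficients -/
def cb (g : Fin 3 → K) (a : Fin 3 → k) : K := ∑ i, algebraMap k K (a i) * g i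

theorem cb_ge {P : Place k K} {g : Fin 3 → K} {n : ℤ} (h : ∀ i, Ge P n (g i)) (a : Fin 3 → k) :
    Ge P n (cb g a) := by
  refine Ge.sum _ _ fun i _ => ?_
  have := (Ge.const (P := P) (a i)).mul (h i)
  rwa [zero_add] at this

/-- the combinations with larger order -/
def SP (g : Fin 3 → K) (P : Place k K) : Submodule k (Fin 3 → k) where
  carrier := {a | Ge P (mo P g + 1) (cb g a)}
  zero_mem' := by
    left
    simp [cb]
  add_mem' := by
    intro a b ha hb
    have h1 : cb g (a + b) = cb g a + cb g b := by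
      simp only [cb, Pi.add_apply, map_add, add_mul, Finset.sum_add_distrib]
    show Ge P _ (cb g (a + b))
    rw [h1]
    exact Ge.add ha hb
  smul_mem' := by
    intro c a ha
    have h1 : cb g (c • a) = algebraMap k K c * cb g a := by
      simp only [cb, Pi.smul_apply, smul_eq_mul, map_mul, Finset.mul_sum, mul_assoc]
    show Ge P _ (cb g (c • a))
    rw [h1]
    have := (Ge.const (P := P) c).mul ha
    rwa [zero_add] at this

theorem cb_single (g : Fin 3 → K) (i : Fin 3) : cb g (Pi.single i (1 : k)) = g i := by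
  classical
  unfold cb
  rw [Finset.sum_eq_single i]
  · rw [Pi.single_eq_same, map_one, one_mul]
  · intro j _ hj
    rw [Pi.single_eq_of_ne hj, map_zero, zero_mul]
  · intro h
    exact absurd (Finset.mem_univ _) h

theorem SP_ne_top {g : Fin 3 → K} (hg : g ≠ 0) (P : Place k K) : SP g P ≠ ⊤ := by
  obtain ⟨i, hi, e⟩ := exists_mo P hg
  intro h
  have h1 : (Pi.single i (1 : k)) ∈ SP g P := by
    rw [h]
    exact Submodule.mem_top
  have h2 : Ge P (mo P g + 1) (cb g (Pi.single i (1 : k))) := h1
  rw [cb_single] at h2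
  have h3 := h2.resolve_left hi
  omega

variable [CharZero k] [IsFF k K]

theorem exists_two {g : Fin 3 → K} (hg : g ≠ 0) : ∃ a b : Fin 3 → k, cb g b ≠ 0 ∧
    ∀ P : Place k K, (cb g a ≠ 0 ∧ P.ord (cb g a) = mo P g) ∨ P.ord (cb g b) = mo P g := by
  classical
  obtain ⟨i, hi⟩ := Function.ne_iff.1 hg
  have hi' : g i ≠ 0 := hi
  have hfin : {P : Place k K | P.ord (g i) ≠ mo P g}.Finite := by
    refine ((finite_support (k := k) (g i)).union (mo_supp (k := k) g)).subset ?_
    intro P hP
    by_contra h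
    rw [Set.mem_union, not_or] at h
    have h1 : P.ord (g i) = 0 := by
      by_contra h2
      exact h.1 h2
    have h3 : mo P g = 0 := by
      by_contra h2
      exact h.2 h2
    exact hP (by rw [h1, h3])
  let T := hfin.toFinset
  have hinf : Infinite k := inferInstance
  have hnt : (⊤ : Submodule k (Fin 3 → k)) ∉ T.image (SP g) := by
    intro h
    obtain ⟨P, -, hP⟩ := Finset.mem_image.1 h
    exact SP_ne_top hg P hP
  have h1 := Subspace.biUnion_ne_univ_of_top_notMem hnt
  obtain ⟨a, ha⟩ := (Set.ne_univ_iff_exists_notMem _).1 h1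
  refine ⟨a, Pi.single i 1, ?_, ?_⟩
  · rw [cb_single]
    exact hi'
  · intro P
    rw [cb_single]
    by_cases hP : P.ord (g i) = mo P g
    · exact Or.inr hP
    left
    have h2 : a ∉ SP g P := by
      intro h
      apply ha
      rw [Set.mem_iUnion₂]
      exact ⟨SP g P, Finset.mem_image.2 ⟨P, by simpa [T] using hP, rfl⟩, h⟩
    have h3 : ¬ Ge P (mo P g + 1) (cb g a) := h2
    have h4 : cb g a ≠ 0 := fun h => h3 (Or.inl h)
    refine ⟨h4, ?_⟩
    have h5 := (cb_ge (P := P) (fun i => ge_mo P g i) a).resolve_left h4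
    have h6 : ¬ mo P g + 1 ≤ P.ord (cb g a) := fun h => h3 (Or.inr h)
    omega

theorem mem_LL_ge {D : Place k K →₀ ℤ} {f : K} : f ∈ LL D ↔ ∀ P : Place k K, Ge P (-D P) f := by
  rw [mem_LL]
  constructor
  · rintro (h | h) P
    · exact Or.inl h
    · exact Or.inr (h P)
  · intro h
    by_cases h0 : f = 0
    · exact Or.inl h0
    · exact Or.inr fun P => (h P).resolve_left h0

/-- the divisor of the minimal orders -/
noncomputable def mu (g : Fin 3 → K) : Place k K →₀ ℤ :=
  Finsupp.ofSupportFinite (fun P => mo P g) (mo_supp g)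

theorem mu_apply (g : Fin 3 → K) (P : Place k K) : mu g P = mo P g := rfl

variable [IsAlgClosed k]

theorem ddeg_mu (g : Fin 3 → K) : ddeg (mu (k := k) g) = -ht k g := by
  rw [ht_finset g (mu (k := k) g).support]
  · unfold ddeg Finsupp.sum
    rw [neg_neg]
    refine Finset.sum_congr rfl fun P _ => ?_
    show mu (k := k) g P * (P.deg : ℤ) = mo P g
    rw [deg_one, mu_apply]
    simp
  · intro P hP
    rw [Finsupp.mem_support_iff, mu_apply]
    exact hP

end

theorem rank : StmInf → StmBasis → StmRR → S_RANK := by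
  classical
  intro hInf hBasis hRR k K _ _ _ _ _ _ lam x y hE d c hc
  obtain ⟨o, hox, hoy, hoP⟩ := hInf k K lam x y hE
  obtain ⟨hb1, hb2, hb3⟩ := hBasis k K lam x y hE o (by omega)
  set g : Fin 3 → K := fun i => fsum x y fun j => c (i, j) with hgd
  -- g is not zero
  have hg : g ≠ 0 := by
    intro h
    apply hc
    funext p
    have h1 : fsum x y (fun j => c (p.1, j)) = 0 := congrFun h p.1
    exact congrFun (hb2 _ _ h1) p.2
  have hgreg : ∀ i, (∀ P, P ≠ o → Ge P 0 (g i)) ∧ Ge o (-((d + 1 : ℕ) : ℤ)) (g i) := fun i =>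
    (hb3 (d + 1) (Nat.succ_pos d) (g i)).2 ⟨_, rfl⟩
  have hfreg : ∀ l : Fin (d + 2), (∀ P, P ≠ o → Ge P 0 (fn x y l)) ∧
      Ge o (-((d + 2 : ℕ) : ℤ)) (fn x y l) := by
    intro l
    refine (hb3 (d + 2) (by omega) _).2 ⟨Pi.single l 1, ?_⟩
    unfold fsum
    rw [Finset.sum_eq_single l]
    · rw [Pi.single_eq_same, map_one, one_mul]
    · intro j _ hj
      rw [Pi.single_eq_of_ne hj, map_zero, zero_mul]
    · intro h
      exact absurd (Finset.mem_univ _) h
  -- bounds of the height
  have hmo : ∀ P, P ≠ o → 0 ≤ mo P g := fun P hP => le_mo P hg fun i => (hgreg i).1 P hP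
  have hmoo : -((d + 1 : ℕ) : ℤ) ≤ mo o g := le_mo o hg fun i => (hgreg i).2
  have hh0 : 0 ≤ ht k g := ht_nonneg g
  have hh1 : ht k g ≤ ((d + 1 : ℕ) : ℤ) := by
    have h1 : mu (k := k) g + Finsupp.single o ((d + 1 : ℕ) : ℤ) ≥ 0 := by
      intro P
      rw [Finsupp.add_apply, mu_apply]
      by_cases hP : P = o
      · subst hP
        rw [Finsupp.single_eq_same]
        simp only [Finsupp.coe_zero, Pi.zero_apply]
        omega
      · rw [Finsupp.single_eq_of_ne (by first | exact hP | exact fun h => hP h.symm), add_zero]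
        exact hmo P hP
    have h2 := ddeg_nonneg h1
    rw [ddeg_add, ddeg_mu, ddeg_single, deg_one] at h2
    push_cast at h2 ⊢
    linarith
  set h := ht k g with hhd
  set M : ℤ := ((d + 2 : ℕ) : ℤ) with hM
  have hM1 : M = ((d + 1 : ℕ) : ℤ) + 1 := by
    rw [hM]
    push_cast
    ring
  -- the space with poles at infinity
  let D0 : Place k K →₀ ℤ := Finsupp.single o M
  have hD0 : ∀ f : K, f ∈ LL D0 ↔ ((∀ P, P ≠ o → Ge P 0 f) ∧ Ge o (-M) f) := by
    intro f
    rw [mem_LL_ge]
    constructor
    · intro hf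
      refine ⟨fun P hP => ?_, ?_⟩
      · have := hf P
        rwa [Finsupp.single_eq_of_ne (by first | exact hP | exact fun h => hP h.symm),
          neg_zero] at this
      · have := hf o
        rwa [Finsupp.single_eq_same] at this
    · rintro ⟨h1, h2⟩ P
      by_cases hP : P = o
      · subst hP
        rw [Finsupp.single_eq_same]
        exact h2
      · rw [Finsupp.single_eq_of_ne (by first | exact hP | exact fun h => hP h.symm), neg_zero]
        exact h1 P hP
  have hdD0 : ddeg D0 = M := by
    rw [ddeg_single, deg_one]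
    simp
  have hW : ell D0 = M := by
    rw [hRR k K lam x y hE D0 (by rw [hdD0]; omega), hdD0]
  set V := Submodule.span k (Set.range fun p : Fin 3 × Fin (d + 2) =>
      (fsum x y fun j => c (p.1, j)) * fn x y p.2) with hV
  -- upper bound
  let E1 : Place k K →₀ ℤ := D0 - mu g
  have hdE1 : ddeg E1 = M + h := by
    rw [ddeg_sub, hdD0, ddeg_mu]
    ring
  have hE1 : ell E1 = M + h := by
    rw [hRR k K lam x y hE E1 (by rw [hdE1]; omega), hdE1]
  have hfD0 : ∀ l : Fin (d + 2), fn x y l ∈ LL D0 := fun l => (hD0 _).2 (hfreg l)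
  have hVle : V ≤ LL E1 := by
    rw [hV, Submodule.span_le]
    rintro _ ⟨p, rfl⟩
    show g p.1 * fn x y p.2 ∈ LL E1
    rw [mem_LL_ge]
    intro P
    have h1 := (ge_mo P g p.1).mul ((mem_LL_ge.1 (hfD0 p.2)) P)
    have h2 : -(E1 P) = mo P g + -(D0 P) := by
      rw [Finsupp.sub_apply, mu_apply]
      ring
    rw [h2]
    exact h1
  have hup : (Module.finrank k V : ℤ) ≤ M + h := by
    rw [← hE1]
    unfold ell
    exact_mod_cast Submodule.finrank_mono hVle
  have hVfin : FiniteDimensional k V := by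
    rw [hV]
    exact FiniteDimensional.span_of_finite k (Set.finite_range _)
  -- lower bound
  obtain ⟨a, b, hB, hAB⟩ := exists_two (k := k) hg
  set A := cb g a with hAd
  set B := cb g b with hBd
  let W := LL D0
  let Lm : (W × W) →ₗ[k] K := ((LinearMap.mulRight k A).comp W.subtype).coprod
    ((LinearMap.mulRight k B).comp W.subtype)
  have hLm : ∀ p : W × W, Lm p = (p.1 : K) * A + (p.2 : K) * B := fun p => rfl
  have hcomb : ∀ (f : K) (e : Fin 3 → k), f ∈ LL D0 → f * cb g e ∈ V := by
    intro f e hf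
    obtain ⟨c', rfl⟩ := (hb3 (d + 2) (by omega) f).1 ((hD0 f).1 hf)
    have h1 : fsum x y c' * cb g e = ∑ l, ∑ i, (c' l * e i) • (g i * fn x y l) := by
      unfold fsum cb
      rw [Finset.sum_mul_sum]
      refine Finset.sum_congr rfl fun l _ => Finset.sum_congr rfl fun i _ => ?_
      rw [Algebra.smul_def, map_mul]
      ring
    rw [h1]
    refine Submodule.sum_mem _ fun l _ => Submodule.sum_mem _ fun i _ =>
      Submodule.smul_mem _ _ (Submodule.subset_span ⟨(i, l), rfl⟩)
  have hrange : LinearMap.range Lm ≤ V := by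
    rintro _ ⟨p, rfl⟩
    rw [hLm]
    exact add_mem (hcomb _ a p.1.2) (hcomb _ b p.2.2)
  let D1 : Place k K →₀ ℤ := D0 - divisor k B + mu g
  have hdD1 : ddeg D1 = M - h := by
    rw [ddeg_add, ddeg_sub, hdD0, ddeg_mu, ddeg_divisor]
    ring
  have hD1 : ell D1 = M - h := by
    rw [hRR k K lam x y hE D1 (by rw [hdD1]; omega), hdD1]
  let ψ : LinearMap.ker Lm →ₗ[k] K :=
    (W.subtype.comp (LinearMap.fst k W W)).comp (LinearMap.ker Lm).subtype
  have hψ : ∀ p : LinearMap.ker Lm, ψ p ∈ LL D1 := by
    rintro ⟨⟨f, f'⟩, hp⟩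
    have h1 : (f : K) * A + (f' : K) * B = 0 := hp
    show (f : K) ∈ LL D1
    by_cases hf0 : (f : K) = 0
    · exact Or.inl hf0
    rw [mem_LL_ge]
    intro P
    right
    have h2 : -(D1 P) = -(D0 P) + (P.ord B - mo P g) := by
      rw [Finsupp.add_apply, Finsupp.sub_apply, mu_apply, divisor_apply]
      ring
    rw [h2]
    rcases hAB P with ⟨hA0, hA⟩ | hBP
    · have hf'0 : (f' : K) ≠ 0 := by
        intro h0
        rw [h0, zero_mul, add_zero] at h1
        rcases mul_eq_zero.1 h1 with h3 | h3
        · exact hf0 h3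
        · exact hA0 h3
      have h3 : (f : K) * A = -((f' : K) * B) := by linear_combination h1
      have h4 : P.ord ((f : K) * A) = P.ord ((f' : K) * B) := by rw [h3, P.ord_neg]
      rw [P.ord_mul hf0 hA0, P.ord_mul hf'0 hB, hA] at h4
      have h5 := ((mem_LL_ge.1 f'.2) P).resolve_left hf'0
      omega
    · have h5 := ((mem_LL_ge.1 f.2) P).resolve_left hf0
      omega
  have hinj : Function.Injective (LinearMap.codRestrict (LL D1) ψ hψ) := by
    rintro ⟨⟨f, f'⟩, hp⟩ ⟨⟨e, e'⟩, hq⟩ h0
    have h1 : (f : K) * A + (f' : K) * B = 0 := hp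
    have h1' : (e : K) * A + (e' : K) * B = 0 := hq
    have h2 : (f : K) = (e : K) := congrArg (fun t : LL D1 => (t : K)) h0
    have h3 : (f' : K) = (e' : K) := by
      apply mul_right_cancel₀ hB
      rw [h2] at h1
      linear_combination h1 - h1'
    apply Subtype.ext
    apply Prod.ext
    · exact Subtype.ext h2
    · exact Subtype.ext h3
  have hker : (Module.finrank k (LinearMap.ker Lm) : ℤ) ≤ M - h := by
    rw [← hD1]
    unfold ell
    exact_mod_cast LinearMap.finrank_le_finrank_of_injective hinj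
  have hrn := LinearMap.finrank_range_add_finrank_ker Lm
  have hprod : (Module.finrank k (W × W) : ℤ) = M + M := by
    rw [Module.finrank_prod]
    push_cast
    have : (Module.finrank k W : ℤ) = M := hW
    rw [this]
  have hlow : (Module.finrank k (LinearMap.range Lm) : ℤ) ≤ Module.finrank k V := by
    exact_mod_cast Submodule.finrank_mono hrange
  have hrn' : (Module.finrank k (LinearMap.range Lm) : ℤ) + Module.finrank k (LinearMap.ker Lm) =
      M + M := by
    rw [← hprod]
    exact_mod_cast hrn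
  omega

end Pool.Agent.Q231.DP.RANK

namespace Pool.Agent.Q231.DP

open Pool.Agent.Y166.DP Pool.Agent.Q35.DP

theorem rank : StmInf → StmBasis → StmRR → S_RANK := RANK.rank

end Pool.Agent.Q231.DP
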